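import Mathlib

set_option autoImplicit false

namespace Pool.Agent.Results.MP_8652de_gt.NotHurewicz

open Set Filter Topology

/-- small inductive dimension at most zero -/
def IndLeZero {X : Type*} (T : TopologicalSpace X) : Prop :=
  ∀ (p : X) (O : Set X), IsOpen[T] O → p ∈ O →
    ∃ U : Set X, IsOpen[T] U ∧ p ∈ U ∧ U ⊆ O ∧ @frontier X T U = ∅

/-- the Hurewicz covering property -/
def Hurewicz {X : Type*} (T : TopologicalSpace X) : Prop :=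
  ∀ U : ℕ → Set (Set X), (∀ n, (∀ u ∈ U n, IsOpen[T] u) ∧ ⋃₀ U n = univ) →
    ∃ V : ℕ → Set (Set X), (∀ n, V n ⊆ U n ∧ (V n).Finite) ∧ ∀ y, ∀ᶠ n in atTop, y ∈ ⋃₀ V n

/-- an open cover closed under finite unions -/
def Dir {X : Type*} (T : TopologicalSpace X) (U : Set (Set X)) : Prop :=
  (∀ u ∈ U, IsOpen[T] u) ∧ (∀ y, ∃ u ∈ U, y ∈ u) ∧ ∅ ∈ U ∧ ∀ u ∈ U, ∀ v ∈ U, u ∪ v ∈ U

lemma Dir.sUnion_mem {X : Type*} {T : TopologicalSpace X} {U V : Set (Set X)} (h : Dir T U)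
    (hV : V.Finite) (hVU : V ⊆ U) : ⋃₀ V ∈ U := by
  induction V, hV using Set.Finite.induction_on with
  | empty => simpa using h.2.2.1
  | insert _ _ ih =>
    rw [sUnion_insert]
    exact h.2.2.2 _ (hVU (mem_insert _ _)) _ (ih fun x hx => hVU (mem_insert_of_mem _ hx))

lemma Dir.seq {X : Type*} {T : TopologicalSpace X} {U : Set (Set X)} (h : Dir T U)
    (hH : Hurewicz T) : ∃ E : ℕ → Set X, (∀ m, E m ∈ U) ∧ Monotone E ∧ ∀ y, ∃ m, y ∈ E m := by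
  obtain ⟨V, hV, hy⟩ := hH (fun _ => U) fun _ => ⟨h.1, eq_univ_of_forall h.2.1⟩
  refine ⟨fun m => ⋃₀ (⋃ n ∈ Iic m, V n), fun m => h.sUnion_mem
    ((finite_Iic m).biUnion fun n _ => (hV n).2) (iUnion₂_subset fun n _ => (hV n).1),
    fun a b hab => sUnion_mono (biUnion_subset_biUnion_left (Iic_subset_Iic.2 hab)), fun y => ?_⟩
  obtain ⟨m, hm⟩ := (hy y).exists
  exact ⟨m, sUnion_mono (subset_biUnion_of_mem (u := V) (mem_Iic.2 le_rfl)) hm⟩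

lemma tree {X : Type*} {T : TopologicalSpace X} (hH : Hurewicz T) (E : List ℕ → ℕ → Set X)
    (ho : ∀ s m, IsOpen[T] (E s m)) (hm : ∀ s, Monotone (E s)) (hc : ∀ s y, ∃ m, y ∈ E s m) :
    ∃ b : ℕ → List ℕ, ∃ g : ℕ → ℕ, b 0 = [] ∧ (∀ n, b (n + 1) = g n :: b n) ∧
      ∀ y, ∀ᶠ n in atTop, y ∈ E (b n) (g n) := by
  obtain ⟨V, hV, hy⟩ := hH (fun k => range (E (Denumerable.ofNat _ k))) fun k =>
    ⟨by rintro _ ⟨m, rfl⟩; exact ho _ _, eq_univ_of_forall fun y => by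
      obtain ⟨m, h⟩ := hc (Denumerable.ofNat _ k) y
      exact ⟨_, ⟨m, rfl⟩, h⟩⟩
  have h1 : ∀ s : List ℕ, ∃ m, ⋃₀ V (Encodable.encode s) ⊆ E s m := by
    intro s
    obtain ⟨h2, h3⟩ := hV (Encodable.encode s)
    rw [Denumerable.ofNat_encode] at h2
    obtain ⟨I, hI, hI'⟩ := (Set.exists_subset_image_finite_and (p := fun t => t = V _)
      (s := univ) (f := E s)).1 ⟨_, by simpa using h2, h3, rfl⟩
    obtain ⟨m, hm'⟩ := hI'.1.bddAbove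
    refine ⟨m, sUnion_subset fun t ht => ?_⟩
    rw [← hI'.2] at ht
    obtain ⟨i, hi, rfl⟩ := ht
    exact hm s (hm' hi)
  choose g hg using h1
  let b : ℕ → List ℕ := fun n => Nat.rec [] (fun _ s => g s :: s) n
  have hl : ∀ n, (b n).length = n := by
    intro n
    induction n with
    | zero => rfl
    | succ n ih => exact congrArg (· + 1) ih
  have hi : Function.Injective fun n => Encodable.encode (b n) := fun i j h => by
    rw [← hl i, ← hl j, Encodable.encode_injective h]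
  refine ⟨b, fun n => g (b n), rfl, fun n => rfl, fun y => ?_⟩
  filter_upwards [hi.nat_tendsto_atTop.eventually (hy y)] with n hn using hg _ hn

section

variable {X : Type*} {T : TopologicalSpace X} [TopologicalSpace X] [CompactSpace X] [T2Space X]
  {K : Set X}

/-- an open set meeting `K` -/
def Gd (K W : Set X) : Prop := IsOpen W ∧ (W ∩ K).Nonempty

lemma Gd.shrink {W : Set X} (h : Gd K W) : ∃ W', Gd K W' ∧ closure W' ⊆ W := by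
  obtain ⟨h1, p, hp, hk⟩ := h
  obtain ⟨W', a, b, c⟩ := normal_exists_closure_subset isClosed_singleton h1
    (singleton_subset_iff.2 hp)
  exact ⟨W', ⟨a, p, b rfl, hk⟩, c⟩

lemma game (hH : Hurewicz T) (hK : IsClosed K) {W0 : Set X} (h0 : Gd K W0) (A : ℕ → Set X)
    (hA : ∀ x, ∃ᶠ n in atTop, x ∈ A n)
    (h : ∀ n W, Gd K W → W ⊆ W0 → ∃ U, Dir T U ∧ ∀ u ∈ U, ∃ W', Gd K W' ∧ W' ⊆ W ∧
      ∀ x ∈ W' ∩ K, ¬ (x ∈ u ∧ x ∈ A n)) : False := by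
  have h1 : ∀ (n : ℕ) (W : {W // Gd K W ∧ W ⊆ W0}), ∃ (E : ℕ → Set X)
      (N : ℕ → {W // Gd K W ∧ W ⊆ W0}), (∀ m, IsOpen[T] (E m)) ∧ Monotone E ∧
      (∀ y, ∃ m, y ∈ E m) ∧ ∀ m, closure (N m).1 ⊆ W.1 ∧
        ∀ x ∈ (N m).1 ∩ K, ¬ (x ∈ E m ∧ x ∈ A n) := by
    intro n W
    obtain ⟨U, hU, hU'⟩ := h n W.1 W.2.1 W.2.2
    obtain ⟨E, e1, e2, e3⟩ := hU.seq hH
    choose W' a1 a2 a3 using fun m => hU' _ (e1 m)
    choose W'' b1 b2 using fun m => (a1 m).shrink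
    exact ⟨E, fun m => ⟨W'' m, b1 m, subset_closure.trans ((b2 m).trans ((a2 m).trans W.2.2))⟩,
      fun m => hU.1 _ (e1 m), e2, e3, fun m => ⟨(b2 m).trans (a2 m),
        fun x hx => a3 m x ⟨b2 m (subset_closure hx.1), hx.2⟩⟩⟩
  choose E N e1 e2 e3 e4 using h1
  let W : List ℕ → {W // Gd K W ∧ W ⊆ W0} := fun s =>
    List.rec ⟨W0, h0, Subset.rfl⟩ (fun m s w => N s.length w m) s
  obtain ⟨b, g, b0, b1, hy⟩ := tree hH (fun s => E s.length (W s)) (fun s => e1 _ _)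
    (fun s => e2 _ _) (fun s => e3 _ _)
  have hl : ∀ n, (b n).length = n := by
    intro n
    induction n with
    | zero => rw [b0]; rfl
    | succ n ih => rw [b1, List.length_cons, ih]
  have hW : ∀ n, W (b (n + 1)) = N (b n).length (W (b n)) (g n) := fun n => by rw [b1]
  have hc : ∀ n, closure (W (b (n + 1))).1 ⊆ (W (b n)).1 := fun n => by
    rw [hW]; exact (e4 _ _ _).1
  obtain ⟨x, hx⟩ := IsCompact.nonempty_iInter_of_sequence_nonempty_isCompact_isClosed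
    (fun n => closure (W (b n)).1 ∩ K)
    (fun n => inter_subset_inter_left _ ((hc n).trans subset_closure))
    (fun n => (W (b n)).2.1.2.mono (inter_subset_inter_left _ subset_closure))
    (isClosed_closure.inter hK).isCompact (fun n => isClosed_closure.inter hK)
  obtain ⟨n, h1, h2⟩ := ((hA x).and_eventually (hy x)).exists
  have h3 := mem_iInter.1 hx (n + 2)
  have h4 := hc _ h3.1
  rw [hW] at h4
  refine (e4 _ _ _).2 x ⟨h4, h3.2⟩ ⟨h2, ?_⟩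
  rwa [hl]

lemma frag (hT : ∀ u : Set X, IsOpen u → IsOpen[T] u) (hH : Hurewicz T) (hK : IsClosed K)
    {U : Set X} (h1 : IsOpen[T] U) (h2 : IsOpen[T] Uᶜ) {W0 : Set X} (h0 : Gd K W0) :
    ∃ W, Gd K W ∧ W ⊆ W0 ∧ (W ∩ K ⊆ U ∨ W ∩ K ⊆ Uᶜ) := by
  by_contra H
  push Not at H
  refine game hH hK h0 (fun n => if Even n then U else Uᶜ) (fun x => ?_) fun n W hW hW0 => ?_
  · rw [frequently_atTop]
    intro a
    by_cases hx : x ∈ U
    · exact ⟨2 * a, by omega, by simpa using hx⟩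
    · exact ⟨2 * a + 1, by omega, by simpa using hx⟩
  obtain ⟨B, hB, hB1, p, hp, hpB⟩ : ∃ B : Set X, (if Even n then U else Uᶜ) = B ∧
      IsOpen[T] Bᶜ ∧ ∃ p ∈ W ∩ K, p ∉ B := by
    split_ifs
    · exact ⟨_, rfl, h2, not_subset.1 (H W hW hW0).1⟩
    · exact ⟨_, rfl, by simpa using h1, not_subset.1 (H W hW hW0).2⟩
  simp only [hB]
  refine ⟨{u | IsOpen[T] u ∧ ∃ N, IsOpen N ∧ p ∈ N ∧ ∀ x ∈ N, ¬ (x ∈ u ∧ x ∈ B)},
    ⟨fun u hu => hu.1, fun y => ?_, ⟨@isOpen_empty X T, univ, isOpen_univ, trivial, by simp⟩,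
      ?_⟩, ?_⟩
  · by_cases hy : y = p
    · exact ⟨Bᶜ, ⟨hB1, univ, isOpen_univ, trivial, fun x _ hx => hx.1 hx.2⟩, hy ▸ hpB⟩
    · obtain ⟨u, v, a1, a2, a3, a4, a5⟩ := t2_separation hy
      exact ⟨u, ⟨hT u a1, v, a2, a4, fun x hx hx' => disjoint_left.1 a5 hx'.1 hx⟩, a3⟩
  · rintro u ⟨a1, N, a2, a3, a4⟩ v ⟨b1, M, b2, b3, b4⟩
    refine ⟨@IsOpen.union X _ _ T a1 b1, N ∩ M, a2.inter b2, ⟨a3, b3⟩, ?_⟩
    rintro x hx ⟨h | h, h'⟩
    · exact a4 x hx.1 ⟨h, h'⟩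
    · exact b4 x hx.2 ⟨h, h'⟩
  · rintro u ⟨-, N, a2, a3, a4⟩
    exact ⟨W ∩ N, ⟨hW.1.inter a2, p, ⟨hp.1, a3⟩, hp.2⟩, inter_subset_left,
      fun x hx => a4 x hx.1.2⟩

omit [CompactSpace X] in
lemma closed_of_compact (hT : ∀ u : Set X, IsOpen u → IsOpen[T] u) {Z : Set X}
    (hZ : @IsCompact X T Z) : IsClosed Z := by
  have : @Continuous X X T _ id := (@continuous_def X X T _ id).2 hT
  simpa using (@IsCompact.image X X T _ Z id hZ this).isClosed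

omit [CompactSpace X] in
lemma notc (hT : ∀ u : Set X, IsOpen u → IsOpen[T] u)
    (hz : ∀ p O, IsOpen[T] O → p ∈ O → ∃ U, IsOpen[T] U ∧ IsOpen[T] Uᶜ ∧ p ∈ U ∧ U ⊆ O)
    (hc : IsPreconnected K) (hn : K.Nontrivial) {W Z : Set X} (hW : Gd K W)
    (hZ : @IsCompact X T Z) : ¬ W ∩ K ⊆ Z := by
  intro h
  obtain ⟨h1, p, hp, hpK⟩ := hW
  obtain ⟨q, hq, hqp⟩ := hn.exists_ne p
  obtain ⟨U, u1, u2, u3, u4⟩ := hz p (W ∩ {q}ᶜ) (hT _ (h1.inter isOpen_compl_singleton))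
    ⟨hp, hqp.symm⟩
  have c1 : IsClosed (Z ∩ U) := closed_of_compact hT
    (@IsCompact.inter_right X T _ _ hZ ((@isOpen_compl_iff X U T).1 u2))
  have c2 : IsClosed (Z ∩ Uᶜ) := closed_of_compact hT
    (@IsCompact.inter_right X T _ _ hZ ((@isClosed_compl_iff X T U).2 u1))
  have cov : ∀ x ∈ K, x ∉ U → x ∈ Z ∩ Uᶜ ∪ Wᶜ := fun x hx hU => by
    by_cases hw : x ∈ W
    · exact Or.inl ⟨h ⟨hw, hx⟩, hU⟩
    · exact Or.inr hw
  obtain ⟨x, -, x1, x2⟩ := isPreconnected_closed_iff.1 hc _ _ c1 (c2.union h1.isClosed_compl)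
    (fun x hx => by
      by_cases hU : x ∈ U
      · exact Or.inl ⟨h ⟨(u4 hU).1, hx⟩, hU⟩
      · exact Or.inr (cov x hx hU)) ⟨p, hpK, h ⟨hp, hpK⟩, u3⟩
    ⟨q, hq, cov q hq fun hU => (u4 hU).2 rfl⟩
  rcases x2 with x2 | x2
  · exact x2.2 x1.2
  · exact x2 (u4 x1.2).1

lemma main (hT : ∀ u : Set X, IsOpen u → IsOpen[T] u) (hH : Hurewicz T)
    (hz : ∀ p O, IsOpen[T] O → p ∈ O → ∃ U, IsOpen[T] U ∧ IsOpen[T] Uᶜ ∧ p ∈ U ∧ U ⊆ O)
    (hK : IsClosed K) (hc : IsPreconnected K) (hn : K.Nontrivial) : False := by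
  refine game hH hK (W0 := univ) ⟨isOpen_univ, by simpa using hn.nonempty⟩ (fun _ => univ)
    (fun x => (Eventually.of_forall fun _ => trivial).frequently) fun _ W hW _ => ?_
  by_contra H
  have H' : ∀ U, Dir T U → ∃ u ∈ U, ∀ W', Gd K W' → W' ⊆ W → (W' ∩ K ∩ u).Nonempty := by
    intro U hU
    by_contra H2
    push Not at H2
    refine H ⟨U, hU, fun u hu => ?_⟩
    obtain ⟨W', a1, a2, a3⟩ := H2 u hu
    exact ⟨W', a1, a2, fun x hx hx' => (eq_empty_iff_forall_notMem.1 a3) x ⟨hx, hx'.1⟩⟩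
  let ND : Set X → Prop := fun u => ∀ W', Gd K W' → W' ⊆ W →
    ∃ W'', Gd K W'' ∧ W'' ⊆ W' ∧ ∀ x ∈ W'' ∩ K, x ∉ u
  have nd0 : ND ∅ := fun W' h _ => ⟨W', h, Subset.rfl, by simp⟩
  have ndu : ∀ u v, ND u → ND v → ND (u ∪ v) := by
    intro u v hu hv W' h1 h2
    obtain ⟨W1, a1, a2, a3⟩ := hu W' h1 h2
    obtain ⟨W2, b1, b2, b3⟩ := hv W1 a1 (a2.trans h2)
    refine ⟨W2, b1, b2.trans a2, ?_⟩
    rintro x hx (h | h)
    · exact a3 x ⟨b2 hx.1, hx.2⟩ h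
    · exact b3 x hx h
  let Z : Set X := {z | ∀ u, IsOpen[T] u → z ∈ u → ¬ ND u}
  have hZ : @IsCompact X T Z := by
    refine @isCompact_of_finite_subcover X T Z fun {ι} O hO hc => ?_
    classical
    refine (H' {u | ∃ v1 v2, u = v1 ∪ v2 ∧ IsOpen[T] v1 ∧ IsOpen[T] v1ᶜ ∧
        (∃ t : Finset ι, v1 ⊆ ⋃ i ∈ t, O i) ∧ IsOpen[T] v2 ∧ ND v2}
      ⟨?_, fun y => ?_, ?_, ?_⟩).elim ?_
    rotate_right
    · rintro u ⟨⟨v1, v2, rfl, a1, a2, ⟨t, a3⟩, a4, a5⟩, hu⟩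
      refine ⟨t, fun z hz' => a3 ?_⟩
      by_contra hv
      refine hz' _ a2 hv fun W' h1 h2 => ?_
      obtain ⟨W1, b1, b2, b3 | b3⟩ := frag hT hH hK a1 a2 h1
      · exact ⟨W1, b1, b2, fun x hx hx' => hx' (b3 hx)⟩
      · obtain ⟨W2, c1, c2, c3⟩ := a5 W1 b1 (b2.trans h2)
        obtain ⟨x, hx, hx' | hx'⟩ := hu W2 c1 (c2.trans (b2.trans h2))
        · exact absurd hx' (b3 ⟨c2 hx.1, hx.2⟩)
        · exact absurd hx' (c3 x hx)
    · rintro _ ⟨v1, v2, rfl, a1, -, -, a4, -⟩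
      exact @IsOpen.union X _ _ T a1 a4
    · by_cases hy : y ∈ Z
      · obtain ⟨i, hi⟩ := mem_iUnion.1 (hc hy)
        obtain ⟨U, u1, u2, u3, u4⟩ := hz y _ (hO i) hi
        exact ⟨_, ⟨U, ∅, rfl, u1, u2, ⟨{i}, by simpa using u4⟩, @isOpen_empty X T, nd0⟩, Or.inl u3⟩
      · simp only [Z, mem_ofPred_eq] at hy
        push Not at hy
        obtain ⟨u, a1, a2, a3⟩ := hy
        exact ⟨_, ⟨∅, u, rfl, @isOpen_empty X T, by simp, ⟨∅, by simp⟩, a1, a3⟩, Or.inr a2⟩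
    · exact ⟨∅, ∅, by simp, @isOpen_empty X T, by simp, ⟨∅, by simp⟩, @isOpen_empty X T, nd0⟩
    · rintro _ ⟨v1, v2, rfl, a1, a2, ⟨t, a3⟩, a4, a5⟩ _ ⟨w1, w2, rfl, b1, b2, ⟨s, b3⟩, b4, b5⟩
      refine ⟨v1 ∪ w1, v2 ∪ w2, union_union_union_comm _ _ _ _, @IsOpen.union X _ _ T a1 b1, ?_,
        ⟨t ∪ s, ?_⟩, @IsOpen.union X _ _ T a4 b4, ndu _ _ a5 b5⟩
      · rw [compl_union]; exact @IsOpen.inter X T _ _ a2 b2
      · rw [Finset.set_biUnion_union]; exact union_subset_union a3 b3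
  obtain ⟨p, hp, hpZ⟩ := not_subset.1 (notc hT hz hc hn hW hZ)
  obtain ⟨W3, h3, h3'⟩ := Gd.shrink (K := K) (W := W ∩ Zᶜ)
    ⟨hW.1.inter (closed_of_compact hT hZ).isOpen_compl, p, ⟨hp.1, hpZ⟩, hp.2⟩
  refine game hH hK h3 (fun _ => univ)
    (fun x => (Eventually.of_forall fun _ => trivial).frequently) fun _ W' hW' hW3 => ?_
  refine ⟨{u | IsOpen[T] u ∧ ∃ v, ND v ∧ u ∩ W3 ⊆ v},
    ⟨fun u hu => hu.1, fun y => ?_, ⟨@isOpen_empty X T, ∅, nd0, by simp⟩, ?_⟩, ?_⟩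
  · by_cases hy : y ∈ Z
    · exact ⟨(closure W3)ᶜ, ⟨hT _ isClosed_closure.isOpen_compl, ∅, nd0,
        fun x hx => hx.1 (subset_closure hx.2)⟩, fun h => (h3' h).2 hy⟩
    · simp only [Z, mem_ofPred_eq] at hy
      push Not at hy
      obtain ⟨u, a1, a2, a3⟩ := hy
      exact ⟨u, ⟨a1, u, a3, inter_subset_left⟩, a2⟩
  · rintro u ⟨a1, v, a2, a3⟩ u' ⟨b1, v', b2, b3⟩
    refine ⟨@IsOpen.union X _ _ T a1 b1, v ∪ v', ndu _ _ a2 b2, ?_⟩
    rw [union_inter_distrib_right]; exact union_subset_union a3 b3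
  · rintro u ⟨-, v, a2, a3⟩
    obtain ⟨W1, b1, b2, b3⟩ := a2 W' hW'
      (hW3.trans (subset_closure.trans (h3'.trans inter_subset_left)))
    exact ⟨W1, b1, b2, fun x hx hx' => b3 x hx (a3 ⟨hx'.1, hW3 (b2 hx.1)⟩)⟩

end

theorem result (X : Type*) (T1 T2 : TopologicalSpace X)
    (hT : ∀ u : Set X, IsOpen[T2] u → IsOpen[T1] u) (hc : @CompactSpace X T2)
    (hh : @T2Space X T2) (h1 : IndLeZero T1) (h2 : ¬ IndLeZero T2) : ¬ Hurewicz T1 := by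
  intro hH
  have hz : ∀ p O, IsOpen[T1] O → p ∈ O →
      ∃ U, IsOpen[T1] U ∧ IsOpen[T1] Uᶜ ∧ p ∈ U ∧ U ⊆ O := by
    intro p O hO hp
    obtain ⟨U, a1, a2, a3, a4⟩ := h1 p O hO hp
    let := T1
    exact ⟨U, a1, (isClopen_iff_frontier_eq_empty.2 a4).1.isOpen_compl, a2, a3⟩
  apply h2
  have : TotallyDisconnectedSpace X := ⟨fun t _ ht => by
    by_contra hn
    exact main hT hH hz isClosed_closure ht.closure
      ((not_subsingleton_iff.1 hn).mono subset_closure)⟩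
  intro p O hO hp
  obtain ⟨U, a1, a2, a3⟩ := isTopologicalBasis_isClopen.exists_subset_of_mem_open hp hO
  exact ⟨U, a1.2, a2, a3, a1.frontier_eq⟩

end Pool.Agent.Results.MP_8652de_gt.NotHurewicz
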